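import Pool.Agent.W23.PL.Defs
import Pool.Agent.H442R2.KF.Summ
import Pool.Agent.H442R2.BX.Nc

/-!
Project CP (helper475, plan of helper23), package COS (helper7): shifting the class modulo `q`.
-/

set_option autoImplicit false

namespace Pool.Agent.U7.PL

open Finset
open Pool.Agent.H442R2
open Pool.Agent.H442R2.KF
open Pool.Agent.W23.DC
open Pool.Agent.W23.PL
open Pool.Agent.H442R2.BX.TaskNC

namespace TaskCOS

theorem exp_diff (x y : ℝ) :
    |Real.exp (-x) - Real.exp (-y)| ≤ |x - y| * Real.exp (-(min x y)) := by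
  have key : ∀ x y : ℝ, x ≤ y → |Real.exp (-x) - Real.exp (-y)| ≤ |x - y| * Real.exp (-x) := by
    intro x y hxy
    have h1 : Real.exp (-y) ≤ Real.exp (-x) := Real.exp_le_exp.2 (by linarith)
    rw [abs_of_nonneg (by linarith), abs_of_nonpos (by linarith)]
    have h2 : Real.exp (-y) = Real.exp (-x) * Real.exp (-(y - x)) := by
      rw [← Real.exp_add]; congr 1; ring
    have h3 := Real.add_one_le_exp (-(y - x))
    have h4 := Real.exp_pos (-x)
    rw [h2]
    nlinarith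
  rcases le_total x y with h | h
  · rw [min_eq_left h]; exact key x y h
  · rw [min_eq_right h, abs_sub_comm, abs_sub_comm x y]; exact key y x h

/-- the constant -/
noncomputable def KK : ℝ := 4 * Real.pi * Real.exp Real.pi

theorem KK_pos : 0 < KK := by
  unfold KK
  have := Real.pi_pos
  positivity

theorem Wt_diff (N : ℕ) (hN : 1 ≤ N) (b m : ℤ) (hb : |(b : ℝ)| ≤ N) :
    |Wt N (m + b) - Wt N m| ≤ KK * (|(b : ℝ)| / N) * Wt (2 * N) m := by
  have hN0 : (0 : ℝ) < N := by exact_mod_cast hN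
  set u : ℝ := (m : ℝ) / N with hu
  set v : ℝ := ((m + b : ℤ) : ℝ) / N with hv
  set β : ℝ := |(b : ℝ)| / N with hβ
  have hβ0 : 0 ≤ β := by positivity
  have hβ1 : β ≤ 1 := by rw [hβ, div_le_one hN0]; exact hb
  have hvu : |v - u| = β := by
    rw [hv, hu, hβ, ← sub_div]
    push_cast
    rw [add_sub_cancel_left, abs_div, abs_of_pos hN0]
  have hpi := Real.pi_pos
  have e1 : Wt N (m + b) = Real.exp (-(Real.pi * v ^ 2)) := by
    unfold Wt; rw [neg_mul]
  have e2 : Wt N m = Real.exp (-(Real.pi * u ^ 2)) := by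
    unfold Wt; rw [neg_mul]
  have e3 : Wt (2 * N) m = Real.exp (-(Real.pi * (u ^ 2 / 4))) := by
    unfold Wt
    rw [neg_mul]
    congr 3
    rw [hu]
    push_cast
    field_simp
    ring
  rw [e1, e2, e3]
  have h1 := exp_diff (Real.pi * v ^ 2) (Real.pi * u ^ 2)
  -- the first factor
  have hvabs : |v| ≤ |u| + β := by
    have := abs_sub_abs_le_abs_sub v u
    linarith
  have h2 : |Real.pi * v ^ 2 - Real.pi * u ^ 2| ≤ Real.pi * β * (2 * |u| + 1) := by
    have : Real.pi * v ^ 2 - Real.pi * u ^ 2 = Real.pi * ((v - u) * (v + u)) := by ring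
    rw [this, abs_mul, abs_mul, abs_of_pos hpi, hvu, mul_assoc]
    have h3 : |v + u| ≤ 2 * |u| + 1 := by
      have := abs_add_le v u
      linarith
    gcongr
  -- the second factor
  have hsq : ∀ w : ℝ, |w - u| ≤ β → u ^ 2 / 2 - 1 ≤ w ^ 2 := by
    intro w hw
    have h4 : (w - u) ^ 2 ≤ 1 := by
      have h5 : |w - u| ≤ 1 := hw.trans hβ1
      have := (sq_le_one_iff_abs_le_one (w - u)).2 h5
      exact this
    nlinarith [sq_nonneg (2 * w - u)]
  have h6 : Real.pi * (u ^ 2 / 2) - Real.pi ≤ min (Real.pi * v ^ 2) (Real.pi * u ^ 2) := by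
    refine le_min ?_ ?_
    · have := hsq v hvu.le
      nlinarith
    · have := hsq u (by simpa using hβ0)
      nlinarith
  have h7 : Real.exp (-(min (Real.pi * v ^ 2) (Real.pi * u ^ 2))) ≤
      Real.exp Real.pi * (Real.exp (-(Real.pi * (u ^ 2 / 4))) *
        Real.exp (-(Real.pi * (u ^ 2 / 4)))) := by
    rw [← Real.exp_add, ← Real.exp_add]
    apply Real.exp_le_exp.2
    nlinarith
  have h8 : (2 * |u| + 1) * Real.exp (-(Real.pi * (u ^ 2 / 4))) ≤ 4 := by
    have h9 : 2 * |u| + 1 ≤ 4 * Real.exp (Real.pi * (u ^ 2 / 4)) := by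
      have h10 := Real.add_one_le_exp (Real.pi * (u ^ 2 / 4))
      have h11 := Real.pi_gt_three
      have h12 : u ^ 2 = |u| ^ 2 := (sq_abs u).symm
      have h13 : 3 * (u ^ 2 / 4) ≤ Real.pi * (u ^ 2 / 4) := by
        have : 0 ≤ u ^ 2 / 4 := by positivity
        nlinarith
      nlinarith [sq_nonneg (|u| - 1 / 3)]
    calc (2 * |u| + 1) * Real.exp (-(Real.pi * (u ^ 2 / 4)))
        ≤ (4 * Real.exp (Real.pi * (u ^ 2 / 4))) * Real.exp (-(Real.pi * (u ^ 2 / 4))) := by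
          gcongr
      _ = 4 := by rw [mul_assoc, ← Real.exp_add]; simp
  calc |Real.exp (-(Real.pi * v ^ 2)) - Real.exp (-(Real.pi * u ^ 2))|
      ≤ |Real.pi * v ^ 2 - Real.pi * u ^ 2| *
        Real.exp (-(min (Real.pi * v ^ 2) (Real.pi * u ^ 2))) := h1
    _ ≤ (Real.pi * β * (2 * |u| + 1)) * (Real.exp Real.pi *
        (Real.exp (-(Real.pi * (u ^ 2 / 4))) * Real.exp (-(Real.pi * (u ^ 2 / 4))))) := by
        gcongr
    _ = (Real.pi * β * Real.exp Real.pi) * ((2 * |u| + 1) *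
        Real.exp (-(Real.pi * (u ^ 2 / 4)))) * Real.exp (-(Real.pi * (u ^ 2 / 4))) := by ring
    _ ≤ (Real.pi * β * Real.exp Real.pi) * 4 * Real.exp (-(Real.pi * (u ^ 2 / 4))) := by
        gcongr
    _ = KK * β * Real.exp (-(Real.pi * (u ^ 2 / 4))) := by
        unfold KK; ring

theorem summable_shift (N : ℕ) (hN : 1 ≤ N) (b : ℤ) : Summable (fun n : ℤ => Wt N (n + b)) :=
  (Equiv.addRight b).summable_iff.2 (TaskS.summable_Wt N hN)

/-- the shifted form of `SEb` -/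
theorem SEb_eq (N : ℕ) (b a a' : ℤ) (q d d' : ℕ) :
    SEb N b a a' q d d' = ∑' m : ℤ, if ((q : ℤ) ∣ m ∧ (d : ℤ) ∣ m - (a - b) ∧
      (d' : ℤ) ∣ m - (a' - b)) then Wt N (m + b) else 0 := by
  unfold SEb
  rw [← (Equiv.addRight b).tsum_eq]
  refine tsum_congr fun m => ?_
  have h1 : (Equiv.addRight b) m - b = m := by simp
  have h2 : (Equiv.addRight b) m - a = m - (a - b) := by simp; ring
  have h3 : (Equiv.addRight b) m - a' = m - (a' - b) := by simp; ring
  rw [h1, h2, h3]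
  rfl

theorem summable_g (N : ℕ) (hN : 1 ≤ N) (b : ℤ) (p : ℤ → Prop) [DecidablePred p] :
    Summable (fun m : ℤ => if p m then |Wt N (m + b) - Wt N m| else 0) := by
  refine Summable.of_nonneg_of_le (fun n => ?_) (fun n => ?_)
    ((summable_shift N hN b).add (TaskS.summable_Wt N hN))
  · split_ifs
    · exact abs_nonneg _
    · exact le_refl _
  · have h1 := (Wt_pos N (n + b)).le
    have h2 := (Wt_pos N n).le
    split_ifs
    · have := abs_sub (Wt N (n + b)) (Wt N n)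
      rw [abs_of_nonneg h1, abs_of_nonneg h2] at this
      exact this
    · linarith

theorem diff_le (N : ℕ) (hN : 1 ≤ N) (b a a' : ℤ) (q d d' : ℕ) :
    |SEb N b a a' q d d' - BX.SE N (a - b) (a' - b) q d d'| ≤
      ∑' m : ℤ, if ((q : ℤ) ∣ m ∧ (d : ℤ) ∣ m - (a - b) ∧
      (d' : ℤ) ∣ m - (a' - b)) then |Wt N (m + b) - Wt N m| else 0 := by
  classical
  rw [SEb_eq]
  unfold BX.SE
  have s1 : Summable (fun m : ℤ => if ((q : ℤ) ∣ m ∧ (d : ℤ) ∣ m - (a - b) ∧
      (d' : ℤ) ∣ m - (a' - b)) then Wt N (m + b) else 0) := by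
    refine Summable.of_nonneg_of_le (fun n => ?_) (fun n => ?_) (summable_shift N hN b)
    · split_ifs
      · exact (Wt_pos N _).le
      · exact le_refl _
    · split_ifs
      · exact le_refl _
      · exact (Wt_pos N _).le
  have s2 : Summable (fun m : ℤ => if ((q : ℤ) ∣ m ∧ (d : ℤ) ∣ m - (a - b) ∧
      (d' : ℤ) ∣ m - (a' - b)) then Wt N m else 0) := summable_ite N hN _
  rw [← s1.tsum_sub s2]
  have s3 := summable_g N hN b (fun m => ((q : ℤ) ∣ m ∧ (d : ℤ) ∣ m - (a - b) ∧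
      (d' : ℤ) ∣ m - (a' - b)))
  have e : ∀ m : ℤ, ‖(if ((q : ℤ) ∣ m ∧ (d : ℤ) ∣ m - (a - b) ∧
      (d' : ℤ) ∣ m - (a' - b)) then Wt N (m + b) else 0) - (if ((q : ℤ) ∣ m ∧ (d : ℤ) ∣ m - (a - b) ∧
      (d' : ℤ) ∣ m - (a' - b)) then Wt N m else 0)‖ = if ((q : ℤ) ∣ m ∧ (d : ℤ) ∣ m - (a - b) ∧
      (d' : ℤ) ∣ m - (a' - b)) then |Wt N (m + b) - Wt N m| else 0 := by
    intro m
    split_ifs
    · rfl
    · simp
  have := norm_tsum_le_tsum_norm (f := fun m : ℤ => (if ((q : ℤ) ∣ m ∧ (d : ℤ) ∣ m - (a - b) ∧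
      (d' : ℤ) ∣ m - (a' - b)) then Wt N (m + b) else 0) - (if ((q : ℤ) ∣ m ∧ (d : ℤ) ∣ m - (a - b) ∧
      (d' : ℤ) ∣ m - (a' - b)) then Wt N m else 0)) (by simpa only [e] using s3)
  simp only [e] at this
  exact this

/-- the total weight of the pairs at `m` -/
noncomputable def fc (N q D0 X : ℕ) (b A A' : ℤ) (c c' : ℕ → ℝ) (m : ℤ) : ℝ :=
  ∑ d ∈ Ioc D0 X, ∑ d' ∈ (Ioc D0 X).filter (fun d' => Nat.Coprime d d'), |c d * c' d'| *
    (if ((q : ℤ) ∣ m ∧ (d : ℤ) ∣ m - A ∧ (d' : ℤ) ∣ m - A') then |Wt N (m + b) - Wt N m| else 0)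

theorem fc_le (N q D0 X : ℕ) (b A A' : ℤ) (c c' : ℕ → ℝ) (m : ℤ) (y : ℝ)
    (hc : BX.CofR y X c) (hc' : BX.CofR y X c') :
    fc N q D0 X b A A' c c' m ≤ |Wt N (m + b) - Wt N m| *
      ((BX.rd y X (m - A)).card * (BX.rd y X (m - A')).card) := by
  classical
  set w := |Wt N (m + b) - Wt N m| with hw
  have hw0 : 0 ≤ w := abs_nonneg _
  have hone : ∀ (c : ℕ → ℝ) (B : ℤ), BX.CofR y X c →
      ∑ d ∈ Ioc D0 X, |c d| * (if (d : ℤ) ∣ m - B then (1 : ℝ) else 0) ≤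
        (BX.rd y X (m - B)).card := by
    intro c B hc
    have h1 : ∑ d ∈ Ioc D0 X, |c d| * (if (d : ℤ) ∣ m - B then (1 : ℝ) else 0) ≤
        ∑ d ∈ Ioc D0 X, (if d ∈ BX.rd y X (m - B) then (1 : ℝ) else 0) := by
      refine sum_le_sum fun d hd => ?_
      by_cases h0 : c d = 0
      · rw [h0, abs_zero, zero_mul]
        split_ifs <;> norm_num
      · by_cases h2 : (d : ℤ) ∣ m - B
        · have h3 := hc.supp d h0
          have h4 : d ∈ BX.rd y X (m - B) := by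
            unfold BX.rd BX.roughs
            rw [mem_filter, mem_filter, mem_Icc]
            exact ⟨⟨⟨h3.2.1.le, h3.1⟩, h3.2⟩, h2⟩
          rw [if_pos h2, if_pos h4, mul_one]
          exact hc.bd d
        · rw [if_neg h2, mul_zero]
          split_ifs <;> norm_num
    refine h1.trans ?_
    rw [sum_boole]
    exact_mod_cast card_le_card (fun d hd => (mem_filter.1 hd).2)
  unfold fc
  calc _ ≤ ∑ d ∈ Ioc D0 X, ∑ d' ∈ Ioc D0 X, |c d * c' d'| *
        (if ((q : ℤ) ∣ m ∧ (d : ℤ) ∣ m - A ∧ (d' : ℤ) ∣ m - A') then w else 0) := by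
        refine sum_le_sum fun d _ => ?_
        refine sum_le_sum_of_subset_of_nonneg (filter_subset _ _) fun d' _ _ => ?_
        refine mul_nonneg (abs_nonneg _) ?_
        split_ifs
        · exact hw0
        · exact le_refl _
    _ ≤ ∑ d ∈ Ioc D0 X, ∑ d' ∈ Ioc D0 X, w * ((|c d| * (if (d : ℤ) ∣ m - A then 1 else 0)) *
        (|c' d'| * (if (d' : ℤ) ∣ m - A' then 1 else 0))) := by
        refine sum_le_sum fun d _ => sum_le_sum fun d' _ => ?_
        rw [abs_mul]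
        have h1 := abs_nonneg (c d)
        have h2 := abs_nonneg (c' d')
        by_cases h3 : (d : ℤ) ∣ m - A <;> by_cases h4 : (d' : ℤ) ∣ m - A' <;>
          by_cases h5 : (q : ℤ) ∣ m <;> simp [h3, h4, h5]
        · exact le_of_eq (by ring)
        · positivity
    _ = w * ((∑ d ∈ Ioc D0 X, |c d| * (if (d : ℤ) ∣ m - A then (1:ℝ) else 0)) *
        (∑ d' ∈ Ioc D0 X, |c' d'| * (if (d' : ℤ) ∣ m - A' then (1:ℝ) else 0))) := by
        rw [sum_mul_sum, mul_sum]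
        refine sum_congr rfl fun d _ => ?_
        rw [mul_sum]
    _ ≤ _ := by
        refine mul_le_mul_of_nonneg_left ?_ hw0
        refine mul_le_mul (hone c A hc) (hone c' A' hc') ?_ (by positivity)
        refine sum_nonneg fun d _ => mul_nonneg (abs_nonneg _) ?_
        split_ifs <;> norm_num

theorem sum_bd (D0 X : ℕ) (F : ℕ → ℕ → ℝ) (B : ℝ) (hB : 0 ≤ B)
    (h : ∀ d ∈ Ioc D0 X, ∀ d' ∈ Ioc D0 X, |F d d'| ≤ B) :
    |∑ d ∈ Ioc D0 X, ∑ d' ∈ (Ioc D0 X).filter (fun d' => Nat.Coprime d d'), F d d'| ≤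
      X * (X * B) := by
  have hcard : ((Ioc D0 X).card : ℝ) ≤ X := by
    rw [Nat.card_Ioc]
    exact_mod_cast Nat.sub_le X D0
  calc _ ≤ ∑ d ∈ Ioc D0 X, |∑ d' ∈ (Ioc D0 X).filter (fun d' => Nat.Coprime d d'), F d d'| :=
        abs_sum_le_sum_abs _ _
    _ ≤ ∑ d ∈ Ioc D0 X, (X : ℝ) * B := by
        refine sum_le_sum fun d hd => ?_
        calc _ ≤ ∑ d' ∈ (Ioc D0 X).filter (fun d' => Nat.Coprime d d'), |F d d'| :=
              abs_sum_le_sum_abs _ _
          _ ≤ ∑ d' ∈ (Ioc D0 X).filter (fun d' => Nat.Coprime d d'), B :=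
              sum_le_sum fun d' hd' => h d hd d' (mem_filter.1 hd').1
          _ = (((Ioc D0 X).filter (fun d' => Nat.Coprime d d')).card : ℝ) * B := by
              rw [sum_const, nsmul_eq_mul]
          _ ≤ (X : ℝ) * B := by
              refine mul_le_mul_of_nonneg_right ?_ hB
              refine le_trans ?_ hcard
              exact_mod_cast card_filter_le _ _
    _ = ((Ioc D0 X).card : ℝ) * ((X : ℝ) * B) := by rw [sum_const, nsmul_eq_mul]
    _ ≤ _ := by gcongr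

end TaskCOS

open TaskCOS in
/-- COS -/
theorem COS (hCOU : St_COU) (hRC : BX.St_RC) (hGS : BX.St_GS) : St_COS := by
  classical
  intro θ δ hθ0 hθ hδ
  obtain ⟨ε₁, η₁, C₁, hε₁, hη₁, hC₁, hcou⟩ := hCOU θ δ hθ0 hθ hδ
  refine ⟨min ε₁ (1 / 4), lt_min hε₁ (by norm_num), ?_⟩
  intro ε hε
  obtain ⟨N₀, C0, hC0, hrc⟩ := hRC ε hε
  have hKK := KK_pos
  refine ⟨min η₁ (4 / 9), C₁ + (4 * KK * C0 + 80 * KK * C0 ^ 2) +
    (N₀ : ℝ) * (N₀ * (5 * N₀ + 4)), lt_min hη₁ (by norm_num), by positivity, ?_⟩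
  intro N q D0 X hN hq hqo hqs hqN hXN hD0 hXD b a a' hb ha ha' haa c c' hc hc' hcR hcR' hF
  have hN1 : 1 ≤ N := by omega
  have hNpos : (0:ℝ) < N := by exact_mod_cast (by omega : 0 < N)
  have hN1' : (1:ℝ) ≤ N := by exact_mod_cast hN1
  set η : ℝ := min η₁ (4 / 9) with hη
  have hηle : η ≤ 4 / 9 := min_le_right _ _
  have hNη1 : (1:ℝ) ≤ (N:ℝ) ^ (1 - η) := Real.one_le_rpow hN1' (by linarith)
  have hXle : (X : ℝ) ≤ (N : ℝ) ^ (1 - η) :=
    hXN.trans (Real.rpow_le_rpow_of_exponent_le hN1' (by linarith))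
  have hXN1 : (X : ℝ) ≤ N := by
    refine hXN.trans ?_
    calc (N : ℝ) ^ θ ≤ (N : ℝ) ^ (1 : ℝ) := Real.rpow_le_rpow_of_exponent_le hN1' (by linarith)
      _ = N := Real.rpow_one _
  by_cases hsmall : N < N₀
  · -- small `N`
    have hNN : (N:ℝ) ≤ N₀ := by exact_mod_cast hsmall.le
    have h1 : ∀ d ∈ Ioc D0 X, ∀ d' ∈ Ioc D0 X,
        |c d * c' d' * (SEb N b a a' q d d' - N / (q * d * d'))| ≤ 5 * N + 4 := by
      intro d hd d' hd'
      have hd1 : (1:ℝ) ≤ d := by exact_mod_cast (by have := (mem_Ioc.1 hd).1; omega : 1 ≤ d)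
      have hd1' : (1:ℝ) ≤ d' := by exact_mod_cast (by have := (mem_Ioc.1 hd').1; omega : 1 ≤ d')
      have hq1 : (1:ℝ) ≤ q := by exact_mod_cast hq
      have hS0 : 0 ≤ SEb N b a a' q d d' := by
        unfold SEb
        refine tsum_nonneg fun n => ?_
        split_ifs
        · exact (Wt_pos N n).le
        · exact le_refl _
      have hS1 : SEb N b a a' q d d' ≤ 4 * ((N:ℝ) + 1) := by
        have h2 := (hGS N hN1).2 1 a le_rfl
        simp only [Nat.cast_one, div_one] at h2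
        refine le_trans ?_ h2
        unfold SEb
        refine Summable.tsum_le_tsum (fun n => ?_) (summable_ite N hN1 _) (summable_ite N hN1 _)
        rw [if_pos (one_dvd (n - a))]
        split_ifs
        · exact le_refl _
        · exact (Wt_pos N n).le
      have hM0 : 0 ≤ (N:ℝ) / (q * d * d') := by positivity
      have hM1 : (N:ℝ) / (q * d * d') ≤ N := by
        refine div_le_self hNpos.le ?_
        have : (1:ℝ) ≤ q * d := one_le_mul_of_one_le_of_one_le hq1 hd1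
        exact one_le_mul_of_one_le_of_one_le this hd1'
      have h3 : |SEb N b a a' q d d' - N / (q * d * d')| ≤ 5 * N + 4 := by
        rw [abs_le]
        constructor <;> linarith
      rw [abs_mul, abs_mul]
      have h4 := hc.bd d
      have h5 := hc'.bd d'
      calc |c d| * |c' d'| * |SEb N b a a' q d d' - N / (q * d * d')|
          ≤ 1 * 1 * (5 * N + 4) := by gcongr
        _ = 5 * N + 4 := by ring
    refine (sum_bd D0 X _ (5 * N + 4) (by positivity) h1).trans ?_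
    calc (X:ℝ) * (X * (5 * N + 4)) ≤ N₀ * (N₀ * (5 * N₀ + 4)) := by
          have : (X:ℝ) ≤ N₀ := hXN1.trans hNN
          gcongr
      _ ≤ (C₁ + (4 * KK * C0 + 80 * KK * C0 ^ 2) + (N₀ : ℝ) * (N₀ * (5 * N₀ + 4))) * 1 := by
          have : 0 ≤ C₁ + (4 * KK * C0 + 80 * KK * C0 ^ 2) := by positivity
          linarith
      _ ≤ _ := by gcongr
  push Not at hsmall
  -- the shifted classes
  have hbq : |(b:ℝ)| ≤ (N:ℝ) ^ (1 / 4 : ℝ) := hb.trans (hqN.trans
    (Real.rpow_le_rpow_of_exponent_le hN1' (min_le_right _ _)))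
  have hb4 : (N:ℝ) ^ (1 / 4 : ℝ) ≤ (N:ℝ) ^ (1 / 2 : ℝ) :=
    Real.rpow_le_rpow_of_exponent_le hN1' (by norm_num)
  have hb5 : (N:ℝ) ^ (1 / 4 : ℝ) ≤ (N:ℝ) ^ (1 - η) :=
    Real.rpow_le_rpow_of_exponent_le hN1' (by linarith)
  have hbN : |(b:ℝ)| ≤ N := by
    refine hbq.trans ?_
    calc (N : ℝ) ^ (1 / 4 : ℝ) ≤ (N : ℝ) ^ (1 : ℝ) :=
          Real.rpow_le_rpow_of_exponent_le hN1' (by norm_num)
      _ = N := Real.rpow_one _
  obtain ⟨A, hAdef⟩ : ∃ A : ℤ, A = a - b := ⟨_, rfl⟩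
  obtain ⟨A', hAdef'⟩ : ∃ A' : ℤ, A' = a' - b := ⟨_, rfl⟩
  have hA : |(A:ℝ)| ≤ N := by
    rw [hAdef]; push_cast
    have := abs_sub (a:ℝ) (b:ℝ)
    linarith
  have hA' : |(A':ℝ)| ≤ N := by
    rw [hAdef']; push_cast
    have := abs_sub (a':ℝ) (b:ℝ)
    linarith
  have hAA : A ≠ A' := by
    rw [hAdef, hAdef']
    intro h
    exact haa (by linarith)
  have hcoe : (N:ℝ) ^ (min ε₁ (1 / 4)) ≤ (N:ℝ) ^ ε₁ :=
    Real.rpow_le_rpow_of_exponent_le hN1' (min_le_left _ _)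
  have hD0' : (0:ℝ) ≤ D0 := by positivity
  have hmain := hcou N q D0 X hN hq hqo hqs (hqN.trans hcoe) hXN hD0
    (hXD.trans (mul_le_mul_of_nonneg_right hcoe hD0')) A A' hA hA' hAA c c' hc hc' hF
  -- splitting
  have hsplit : ∑ d ∈ Ioc D0 X, ∑ d' ∈ (Ioc D0 X).filter (fun d' => Nat.Coprime d d'),
      c d * c' d' * (SEb N b a a' q d d' - N / (q * d * d')) =
      ∑ d ∈ Ioc D0 X, ∑ d' ∈ (Ioc D0 X).filter (fun d' => Nat.Coprime d d'), c d * c' d' *
        (BX.SE N A A' q d d' - N / (q * d * d')) +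
      ∑ d ∈ Ioc D0 X, ∑ d' ∈ (Ioc D0 X).filter (fun d' => Nat.Coprime d d'), c d * c' d' *
        (SEb N b a a' q d d' - BX.SE N A A' q d d') := by
    rw [← sum_add_distrib]
    refine sum_congr rfl fun d _ => ?_
    rw [← sum_add_distrib]
    refine sum_congr rfl fun d' _ => ?_
    ring
  have hg : ∀ d d' : ℕ, Summable (fun m : ℤ => |c d * c' d'| *
      (if ((q : ℤ) ∣ m ∧ (d : ℤ) ∣ m - A ∧ (d' : ℤ) ∣ m - A') then
        |Wt N (m + b) - Wt N m| else 0)) := fun d d' => (summable_g N hN1 b _).mul_left _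
  have hdiff : |∑ d ∈ Ioc D0 X, ∑ d' ∈ (Ioc D0 X).filter (fun d' => Nat.Coprime d d'),
      c d * c' d' * (SEb N b a a' q d d' - BX.SE N A A' q d d')| ≤
      ∑' m : ℤ, fc N q D0 X b A A' c c' m := by
    calc _ ≤ ∑ d ∈ Ioc D0 X, ∑ d' ∈ (Ioc D0 X).filter (fun d' => Nat.Coprime d d'),
          |c d * c' d' * (SEb N b a a' q d d' - BX.SE N A A' q d d')| :=
          (abs_sum_le_sum_abs _ _).trans (sum_le_sum fun d _ => abs_sum_le_sum_abs _ _)
      _ ≤ ∑ d ∈ Ioc D0 X, ∑ d' ∈ (Ioc D0 X).filter (fun d' => Nat.Coprime d d'),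
          ∑' m : ℤ, |c d * c' d'| *
            (if ((q : ℤ) ∣ m ∧ (d : ℤ) ∣ m - A ∧ (d' : ℤ) ∣ m - A') then
              |Wt N (m + b) - Wt N m| else 0) := by
          refine sum_le_sum fun d _ => sum_le_sum fun d' _ => ?_
          rw [abs_mul, tsum_mul_left]
          refine mul_le_mul_of_nonneg_left ?_ (abs_nonneg _)
          have := diff_le N hN1 b a a' q d d'
          rw [← hAdef, ← hAdef'] at this
          exact this
      _ = ∑ d ∈ Ioc D0 X, ∑' m : ℤ, ∑ d' ∈ (Ioc D0 X).filter (fun d' => Nat.Coprime d d'),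
          |c d * c' d'| * (if ((q : ℤ) ∣ m ∧ (d : ℤ) ∣ m - A ∧ (d' : ℤ) ∣ m - A') then
              |Wt N (m + b) - Wt N m| else 0) := by
          refine sum_congr rfl fun d _ => ?_
          rw [Summable.tsum_finsetSum fun d' _ => hg d d']
      _ = _ := by
          unfold fc
          rw [Summable.tsum_finsetSum fun d _ => summable_sum fun d' _ => hg d d']
  -- pointwise bound
  set β : ℝ := |(b : ℝ)| / N with hβ
  have hβ0 : 0 ≤ β := by positivity
  have hβ1 : β ≤ 1 := by rw [hβ, div_le_one hNpos]; exact hbN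
  have hr1 : ∀ b : ℤ, |(b:ℝ)| ≤ N → (1 + |(b:ℝ)| / N) ^ (1 / 4 : ℝ) ≤ 2 := by
    intro b hb
    have h1 : 1 + |(b:ℝ)| / N ≤ 2 := by
      have : |(b:ℝ)| / N ≤ 1 := by rw [div_le_one hNpos]; exact hb
      linarith
    have h2 : (1:ℝ) ≤ 1 + |(b:ℝ)| / N := by
      have : 0 ≤ |(b:ℝ)| / N := by positivity
      linarith
    calc (1 + |(b:ℝ)| / N) ^ (1 / 4 : ℝ) ≤ (1 + |(b:ℝ)| / N) ^ (1 : ℝ) :=
          Real.rpow_le_rpow_of_exponent_le h2 (by norm_num)
      _ = 1 + |(b:ℝ)| / N := Real.rpow_one _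
      _ ≤ 2 := h1
  set y := (N : ℝ) ^ ε with hy
  have hX' : ∀ m : ℤ, ((BX.rd y X m).card : ℝ) ≤ X := by
    intro m
    have : (BX.rd y X m).card ≤ X := (card_filter_le _ _).trans (card_roughs y X)
    exact_mod_cast this
  have hX0 : (0:ℝ) ≤ X := by positivity
  have hpt : ∀ m : ℤ, fc N q D0 X b A A' c c' m ≤ (if m = A then 2 * KK * C0 * X else 0) +
      (if m = A' then 2 * KK * C0 * X else 0) + 4 * KK * C0 ^ 2 * β * Wt (2 * (2 * N)) m := by
    intro m
    have h0 := fc_le N q D0 X b A A' c c' m y hcR hcR'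
    have hw := Wt_diff N hN1 b m hbN
    rw [← hβ] at hw
    have hw1 : |Wt N (m + b) - Wt N m| ≤ KK := by
      refine hw.trans ?_
      have h1 := Wt_le_one (2 * N) m
      have h2 := (Wt_pos (2 * N) m).le
      calc KK * β * Wt (2 * N) m ≤ KK * 1 * 1 := by gcongr
        _ = KK := by ring
    have hw0 : 0 ≤ |Wt N (m + b) - Wt N m| := abs_nonneg _
    have hW4 : 0 ≤ 4 * KK * C0 ^ 2 * β * Wt (2 * (2 * N)) m := by
      have := (Wt_pos (2 * (2 * N)) m).le
      positivity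
    by_cases hmA : m = A
    · have h1 : ((BX.rd y X (m - A')).card : ℝ) ≤ 2 * C0 := by
        have h2 := hrc N X hsmall A' m hA' (by rw [hmA]; exact hAA)
        have h3 := hr1 m (by rw [hmA]; exact hA)
        nlinarith
      have h4 := hX' (m - A)
      rw [if_pos hmA]
      have h5 : 0 ≤ (if m = A' then 2 * KK * C0 * (X:ℝ) else 0) := by split_ifs <;> positivity
      have h6 : |Wt N (m + b) - Wt N m| *
          (((BX.rd y X (m - A)).card : ℝ) * ((BX.rd y X (m - A')).card : ℝ)) ≤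
          KK * ((X:ℝ) * (2 * C0)) := by gcongr
      linarith
    by_cases hmA' : m = A'
    · have h1 : ((BX.rd y X (m - A)).card : ℝ) ≤ 2 * C0 := by
        have h2 := hrc N X hsmall A m hA hmA
        have h3 := hr1 m (by rw [hmA']; exact hA')
        nlinarith
      have h4 := hX' (m - A')
      rw [if_neg hmA, if_pos hmA']
      have h6 : |Wt N (m + b) - Wt N m| *
          (((BX.rd y X (m - A)).card : ℝ) * ((BX.rd y X (m - A')).card : ℝ)) ≤
          KK * ((2 * C0) * (X:ℝ)) := by gcongr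
      linarith
    rw [if_neg hmA, if_neg hmA', add_zero, zero_add]
    have h1 := hrc N X hsmall A m hA hmA
    have h2 := hrc N X hsmall A' m hA' hmA'
    set t := 1 + |(m:ℝ)| / N with ht
    have ht1 : 1 ≤ t := by
      have : 0 ≤ |(m:ℝ)| / N := by positivity
      linarith
    have h3 : t ^ (1 / 4 : ℝ) * t ^ (1 / 4 : ℝ) ≤ t := by
      rw [← Real.rpow_add (by linarith)]
      calc t ^ (1 / 4 + 1 / 4 : ℝ) ≤ t ^ (1 : ℝ) :=
            Real.rpow_le_rpow_of_exponent_le ht1 (by norm_num)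
        _ = t := Real.rpow_one _
    have h4 := (hGS (2 * N) (by omega)).1 m
    have h5 : t ≤ 2 * (1 + |(m:ℝ)| / ((2 * N : ℕ) : ℝ)) := by
      rw [ht]
      push_cast
      have : |(m:ℝ)| / N = 2 * (|(m:ℝ)| / (2 * N)) := by field_simp
      linarith
    have hW2 := (Wt_pos (2 * N) m).le
    calc fc N q D0 X b A A' c c' m
        ≤ |Wt N (m + b) - Wt N m| *
          (((BX.rd y X (m - A)).card : ℝ) * ((BX.rd y X (m - A')).card : ℝ)) := h0
      _ ≤ (KK * β * Wt (2 * N) m) * ((C0 * t ^ (1 / 4 : ℝ)) * (C0 * t ^ (1 / 4 : ℝ))) := by gcongr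
      _ = KK * β * C0 ^ 2 * (Wt (2 * N) m * (t ^ (1 / 4 : ℝ) * t ^ (1 / 4 : ℝ))) := by ring
      _ ≤ KK * β * C0 ^ 2 * (Wt (2 * N) m * (2 * (1 + |(m:ℝ)| / ((2 * N : ℕ) : ℝ)))) := by
          exact mul_le_mul_of_nonneg_left (mul_le_mul_of_nonneg_left (h3.trans h5) hW2)
            (by positivity)
      _ = 2 * KK * β * C0 ^ 2 * (Wt (2 * N) m * (1 + |(m:ℝ)| / ((2 * N : ℕ) : ℝ))) := by ring
      _ ≤ 2 * KK * β * C0 ^ 2 * (2 * Wt (2 * (2 * N)) m) := by gcongr
      _ = 4 * KK * C0 ^ 2 * β * Wt (2 * (2 * N)) m := by ring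
  -- summability
  have hs1 : ∀ (b : ℤ) (v : ℝ), Summable (fun n : ℤ => if n = b then v else 0) := by
    intro b v
    refine summable_of_ne_finset_zero (s := {b}) fun n hn => ?_
    rw [mem_singleton] at hn
    exact if_neg hn
  have hs2 : Summable (fun m : ℤ => 4 * KK * C0 ^ 2 * β * Wt (2 * (2 * N)) m) :=
    (TaskS.summable_Wt (2 * (2 * N)) (by omega)).mul_left _
  have hsf : Summable (fun m : ℤ => fc N q D0 X b A A' c c' m) := by
    unfold fc
    exact summable_sum fun d _ => summable_sum fun d' _ => hg d d'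
  have htot := Summable.tsum_le_tsum hpt hsf
    (((hs1 A (2 * KK * C0 * X)).add (hs1 A' (2 * KK * C0 * X))).add hs2)
  rw [Summable.tsum_add ((hs1 A (2 * KK * C0 * X)).add (hs1 A' (2 * KK * C0 * X))) hs2,
    Summable.tsum_add (hs1 A (2 * KK * C0 * X)) (hs1 A' (2 * KK * C0 * X)), tsum_ite_eq,
    tsum_ite_eq, tsum_mul_left] at htot
  have hWs : ∑' m : ℤ, Wt (2 * (2 * N)) m ≤ 4 * (4 * (N:ℝ) + 1) := by
    have h2 := (hGS (2 * (2 * N)) (by omega)).2 1 0 le_rfl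
    simp only [Nat.cast_one, div_one] at h2
    have h3 : ∀ n : ℤ, (if (1:ℤ) ∣ n - 0 then Wt (2 * (2 * N)) n else 0) = Wt (2 * (2 * N)) n :=
      fun n => if_pos (one_dvd _)
    simp only [h3] at h2
    refine h2.trans (le_of_eq ?_)
    push_cast
    ring
  have hβN : β * (4 * (4 * (N:ℝ) + 1)) ≤ 20 * (N:ℝ) ^ (1 / 4 : ℝ) := by
    have h1 : β * N = |(b:ℝ)| := by rw [hβ]; field_simp
    have h2 : β ≤ β * N := le_mul_of_one_le_right hβ0 hN1'
    nlinarith
  have hP : 0 ≤ (N:ℝ) ^ (1 - η) := by positivity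
  have hfin : ∑' m : ℤ, fc N q D0 X b A A' c c' m ≤
      (4 * KK * C0 + 80 * KK * C0 ^ 2) * (N:ℝ) ^ (1 - η) := by
    calc _ ≤ 2 * KK * C0 * X + 2 * KK * C0 * X +
          4 * KK * C0 ^ 2 * β * ∑' m : ℤ, Wt (2 * (2 * N)) m := htot
      _ ≤ 2 * KK * C0 * X + 2 * KK * C0 * X +
          4 * KK * C0 ^ 2 * β * (4 * (4 * (N:ℝ) + 1)) := by gcongr
      _ = 4 * KK * C0 * X + 4 * KK * C0 ^ 2 * (β * (4 * (4 * (N:ℝ) + 1))) := by ring
      _ ≤ 4 * KK * C0 * (N:ℝ) ^ (1 - η) + 4 * KK * C0 ^ 2 * (20 * (N:ℝ) ^ (1 - η)) := by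
          have : β * (4 * (4 * (N:ℝ) + 1)) ≤ 20 * (N:ℝ) ^ (1 - η) := hβN.trans (by linarith)
          gcongr
      _ = _ := by ring
  have hmain' : C₁ * (N:ℝ) ^ (1 - η₁) ≤ C₁ * (N:ℝ) ^ (1 - η) := by
    refine mul_le_mul_of_nonneg_left ?_ hC₁.le
    refine Real.rpow_le_rpow_of_exponent_le hN1' ?_
    have : η ≤ η₁ := min_le_left _ _
    linarith
  rw [hsplit]
  calc _ ≤ C₁ * (N:ℝ) ^ (1 - η) + (4 * KK * C0 + 80 * KK * C0 ^ 2) * (N:ℝ) ^ (1 - η) :=
        (abs_add_le _ _).trans (add_le_add (hmain.trans hmain') (hdiff.trans hfin))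
    _ ≤ _ := by
        have : 0 ≤ (N₀ : ℝ) * (N₀ * (5 * N₀ + 4)) * (N:ℝ) ^ (1 - η) := by positivity
        linarith

end Pool.Agent.U7.PL

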